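import Pool.Agent.Q297.Residuated
import Mathlib.Topology.Compactness.Compact
import Mathlib.Topology.Constructions
import Mathlib.Topology.Separation.Basic

/-!
# There is no minimum axiomatic extension of `MTL` with the deductive interpolation property
-/

namespace Pool.Agent.Results.MP_acc005_lc.NoMinimum

open Pool.Agent.Q297.Residuated

/-! ## The logic of a finite algebra in which all elements are definable -/

section Finite

variable {A : Type} [MTLAlgebra A]

/-- The formulas valid in `A`. -/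
def theory (A : Type) [MTLAlgebra A] : Set Fm := {φ | ∀ v : ℕ → A, φ.eval v = 1}

theorem theory_substClosed : SubstClosed (theory A) := by
  intro σ φ hφ v
  rw [eval_subst]
  exact hφ _

theorem continuous_eval [TopologicalSpace A] [DiscreteTopology A] (φ : Fm) :
    Continuous fun v : ℕ → A => φ.eval v := by
  induction φ with
  | var n => exact continuous_apply n
  | zero => exact continuous_const
  | one => exact continuous_const
  | and φ ψ ih1 ih2 =>
    exact (continuous_of_discreteTopology (f := fun p : A × A => p.1 ⊓ p.2)).comp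
      (ih1.prodMk ih2)
  | or φ ψ ih1 ih2 =>
    exact (continuous_of_discreteTopology (f := fun p : A × A => p.1 ⊔ p.2)).comp
      (ih1.prodMk ih2)
  | mul φ ψ ih1 ih2 =>
    exact (continuous_of_discreteTopology (f := fun p : A × A => p.1 * p.2)).comp
      (ih1.prodMk ih2)
  | imp φ ψ ih1 ih2 =>
    exact (continuous_of_discreteTopology
      (f := fun p : A × A => FLewAlgebra.imp p.1 p.2)).comp (ih1.prodMk ih2)

theorem finite_compact [Finite A] (P : Set Fm) (φ : Fm)
    (h : ∀ F : Finset Fm, ↑F ⊆ P → ∃ v : ℕ → A, (∀ ψ ∈ F, ψ.eval v = 1) ∧ φ.eval v ≠ 1) :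
    ∃ v : ℕ → A, (∀ ψ ∈ P, ψ.eval v = 1) ∧ φ.eval v ≠ 1 := by
  let _ : TopologicalSpace A := ⊥
  have : DiscreteTopology A := ⟨rfl⟩
  have hcl : ∀ ψ : Fm, IsClosed {v : ℕ → A | ψ.eval v = 1} := fun ψ =>
    (isClosed_discrete {(1 : A)}).preimage (continuous_eval ψ)
  have hcl' : IsClosed {v : ℕ → A | φ.eval v ≠ 1} :=
    (isClosed_discrete {(1 : A)}ᶜ).preimage (continuous_eval φ)
  by_contra hcon
  have hempty : {v : ℕ → A | φ.eval v ≠ 1} ∩ ⋂ ψ : P, {v : ℕ → A | (ψ : Fm).eval v = 1} = ∅ := by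
    ext v
    simp only [Set.mem_inter_iff, Set.mem_ofPred_eq, Set.mem_iInter, Subtype.forall,
      Set.mem_empty_iff_false, iff_false, not_and]
    exact fun h1 h2 => hcon ⟨v, h2, h1⟩
  obtain ⟨u, hu⟩ := hcl'.isCompact.elim_finite_subfamily_closed
    (fun ψ : P => {v : ℕ → A | (ψ : Fm).eval v = 1}) (fun ψ => hcl ψ) hempty
  classical
  obtain ⟨v, hv1, hv2⟩ := h (u.image (↑)) (by simp)
  have : v ∈ {v : ℕ → A | φ.eval v ≠ 1} ∩ ⋂ ψ ∈ u, {v : ℕ → A | (ψ : Fm).eval v = 1} := by
    refine ⟨hv2, ?_⟩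
    simp only [Set.mem_iInter, Set.mem_ofPred_eq]
    intro ψ hψ
    exact hv1 _ (Finset.mem_image_of_mem _ hψ)
  rw [hu] at this
  exact this

/-- The axiomatic extension of `MTL` by the formulas valid in `A`. -/
def logicOf (A : Type) [MTLAlgebra A] (Γ : Set Fm) (φ : Fm) : Prop := MTLCons (Γ ∪ theory A) φ

theorem logicOf_isAxExt : IsAxExt MTLCons (logicOf A) :=
  ⟨theory A, theory_substClosed, fun _ _ => Iff.rfl⟩

theorem logicOf_dip [Finite A] (N : ℕ) (hN : ∀ x : A, x ≠ 1 → x ^ N = FLewAlgebra.bot)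
    (hbot : (FLewAlgebra.bot : A) ≠ 1) (χ : A → Fm) (hχv : ∀ a, (χ a).vars ⊆ {0})
    (hχ : ∀ (a : A) (v : ℕ → A), (χ a).eval v = 1 ↔ v 0 = a) : DIP (logicOf A) := by
  have hth : theory A = {ψ | ∀ m ∈ Set.range (truths (A := A)), ψ ∈ m} := by
    ext ψ
    simp only [theory, Set.mem_ofPred_eq, Set.forall_mem_range, truths]
  have := dip_criterion MTLCons (Set.range (truths (A := A))) N (fun _ _ => mtlCons_mem)
    (fun _ _ _ => mtlCons_mp) ?_ ?_ ?_ ?_ ?_
  · unfold logicOf
    rw [hth]
    exact this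
  · rintro Γ φ h _ ⟨v, rfl⟩ hΓ
    refine h A v ?_
    rintro γ (hγ | hγ)
    · exact hΓ hγ
    · exact hγ _ ⟨v, rfl⟩
  · rintro _ ⟨v, rfl⟩
    exact hbot
  · rintro _ ⟨v, rfl⟩ φ ψ
    exact impN_eval hN v φ ψ
  · intro P φ h
    obtain ⟨v, hv1, hv2⟩ := finite_compact (A := A) P φ fun F hF => by
      obtain ⟨_, ⟨v, rfl⟩, h1, h2⟩ := h F hF
      exact ⟨v, fun ψ hψ => h1 hψ, h2⟩
    exact ⟨_, ⟨v, rfl⟩, hv1, hv2⟩
  · rintro _ ⟨v, rfl⟩ _ ⟨v', rfl⟩ Z Z' h
    have hvv : ∀ n, n ∈ Z ∩ Z' → v n = v' n := by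
      intro n hn
      set θ := (χ (v n)).subst (fun k => if k = 0 then .var n else .zero) with hθ
      have hvar : ∀ ψ : Fm, ψ.vars ⊆ {0} →
          (ψ.subst (fun k => if k = 0 then .var n else .zero)).vars ⊆ {n} := by
        intro ψ
        induction ψ with
        | var k =>
          intro hk
          have : k = 0 := hk rfl
          subst this
          exact subset_rfl
        | zero => intro _; exact Set.empty_subset _
        | one => intro _; exact Set.empty_subset _
        | and φ ψ ih1 ih2 =>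
          exact fun h => Set.union_subset (ih1 (Set.subset_union_left.trans h))
            (ih2 (Set.subset_union_right.trans h))
        | or φ ψ ih1 ih2 =>
          exact fun h => Set.union_subset (ih1 (Set.subset_union_left.trans h))
            (ih2 (Set.subset_union_right.trans h))
        | mul φ ψ ih1 ih2 =>
          exact fun h => Set.union_subset (ih1 (Set.subset_union_left.trans h))
            (ih2 (Set.subset_union_right.trans h))
        | imp φ ψ ih1 ih2 =>
          exact fun h => Set.union_subset (ih1 (Set.subset_union_left.trans h))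
            (ih2 (Set.subset_union_right.trans h))
      have h1 : θ ∈ truths v := by
        change θ.eval v = 1
        rw [hθ, eval_subst, hχ]
        rfl
      have h2 : θ ∈ truths v' := (h θ ((hvar _ (hχv _)).trans (by simpa using hn))).mp h1
      change θ.eval v' = 1 at h2
      rw [hθ, eval_subst, hχ] at h2
      exact h2.symm
    classical
    refine ⟨_, ⟨fun n => if n ∈ Z then v n else v' n, rfl⟩, ?_, ?_⟩
    · intro θ hθ
      change θ.eval v = 1 ↔ θ.eval _ = 1
      rw [eval_congr (v := v) (w := fun n => if n ∈ Z then v n else v' n)]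
      intro n hn
      rw [if_pos (hθ hn)]
    · intro θ hθ
      change θ.eval v' = 1 ↔ θ.eval _ = 1
      rw [eval_congr (v := v') (w := fun n => if n ∈ Z then v n else v' n)]
      intro n hn
      by_cases hZ : n ∈ Z
      · rw [if_pos hZ, hvv n ⟨hZ, hθ hn⟩]
      · rw [if_neg hZ]

end Finite

/-! ## Two four-element MTL-chains -/

/-- The four-element chain `0 < a < f < 1` in which all products of elements below `1` are `0`. -/
inductive D4 : Type
  | z | a | f | u
  deriving DecidableEq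

namespace D4

instance : Fintype D4 where
  elems := {.z, .a, .f, .u}
  complete := by intro x; cases x <;> decide

/-- The position in the chain. -/
def rk : D4 → ℕ
  | .z => 0 | .a => 1 | .f => 2 | .u => 3

/-- Multiplication. -/
def mul' : D4 → D4 → D4
  | .u, y => y
  | x, .u => x
  | _, _ => .z

/-- The residual. -/
def imp' : D4 → D4 → D4
  | .u, y => y
  | x, y => if x.rk ≤ y.rk then .u else .f

instance : LinearOrder D4 where
  le x y := x.rk ≤ y.rk
  lt x y := x.rk < y.rk
  le_refl := by decide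
  le_trans := by decide
  lt_iff_le_not_ge := by decide
  le_antisymm := by decide
  le_total := by decide
  toDecidableLE := fun x y => inferInstanceAs (Decidable (x.rk ≤ y.rk))

instance : CommMonoid D4 where
  mul := mul'
  one := .u
  mul_assoc := by decide
  one_mul := by decide
  mul_one := by decide
  mul_comm := by decide

instance : MTLAlgebra D4 where
  bot := .z
  imp := imp'
  fbot_le' := by decide
  le_one' := by decide
  residuation := by decide
  prelinearity := by decide

end D4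

/-- The four-element Łukasiewicz chain `0 < c < d < 1` with `d · d = c` and `c · d = 0`. -/
inductive L4 : Type
  | z | c | d | u
  deriving DecidableEq

namespace L4

instance : Fintype L4 where
  elems := {.z, .c, .d, .u}
  complete := by intro x; cases x <;> decide

/-- The position in the chain. -/
def rk : L4 → ℕ
  | .z => 0 | .c => 1 | .d => 2 | .u => 3

/-- Multiplication. -/
def mul' : L4 → L4 → L4
  | .u, y => y
  | x, .u => x
  | .d, .d => .c
  | _, _ => .z

/-- The residual. -/
def imp' : L4 → L4 → L4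
  | .u, y => y
  | x, y => if x.rk ≤ y.rk then .u else if x.rk = y.rk + 1 then .d else .c

instance : LinearOrder L4 where
  le x y := x.rk ≤ y.rk
  lt x y := x.rk < y.rk
  le_refl := by decide
  le_trans := by decide
  lt_iff_le_not_ge := by decide
  le_antisymm := by decide
  le_total := by decide
  toDecidableLE := fun x y => inferInstanceAs (Decidable (x.rk ≤ y.rk))

instance : CommMonoid L4 where
  mul := mul'
  one := .u
  mul_assoc := by decide
  one_mul := by decide
  mul_one := by decide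
  mul_comm := by decide

instance : MTLAlgebra L4 where
  bot := .z
  imp := imp'
  fbot_le' := by decide
  le_one' := by decide
  residuation := by decide
  prelinearity := by decide

end L4

/-- Formulas defining the elements of `D4`. -/
def chiD : D4 → Fm
  | .z => (Fm.var 0).neg
  | .u => .var 0
  | .f => (Fm.var 0).iff (Fm.var 0).neg
  | .a => .and ((Fm.var 0).neg.iff (Fm.var 0).neg.neg)
      (Fm.mul ((Fm.var 0).iff (Fm.var 0).neg) ((Fm.var 0).iff (Fm.var 0).neg)).neg

/-- Formulas defining the elements of `L4`. -/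
def chiL : L4 → Fm
  | .z => (Fm.var 0).neg
  | .u => .var 0
  | .d => (Fm.var 0).iff (Fm.mul (.var 0) (.var 0)).neg
  | .c => (Fm.var 0).neg.iff (Fm.mul (Fm.var 0).neg (Fm.var 0).neg).neg

theorem dip_D4 : DIP (logicOf D4) := by
  refine logicOf_dip 2 (by decide) (by decide) chiD ?_ ?_
  · intro a
    cases a <;> simp [chiD, Fm.neg, Fm.iff, Fm.vars]
  · intro a v
    have key : ∀ x y : D4, (chiD x).eval (fun _ => y) = 1 ↔ y = x := by decide
    rw [← key a (v 0)]
    rw [eval_congr (v := v) (w := fun _ => v 0)]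
    intro n hn
    have : (chiD a).vars ⊆ {0} := by cases a <;> simp [chiD, Fm.neg, Fm.iff, Fm.vars]
    rw [show n = 0 from this hn]

theorem dip_L4 : DIP (logicOf L4) := by
  refine logicOf_dip 3 (by decide) (by decide) chiL ?_ ?_
  · intro a
    cases a <;> simp [chiL, Fm.neg, Fm.iff, Fm.vars]
  · intro a v
    have key : ∀ x y : L4, (chiL x).eval (fun _ => y) = 1 ↔ y = x := by decide
    rw [← key a (v 0)]
    rw [eval_congr (v := v) (w := fun _ => v 0)]
    intro n hn
    have : (chiL a).vars ⊆ {0} := by cases a <;> simp [chiL, Fm.neg, Fm.iff, Fm.vars]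
    rw [show n = 0 from this hn]

/-! ## Incompatibility -/

section Incompat

variable {A : Type} [MTLAlgebra A]

open FLewAlgebra (imp bot)

theorem prelin (x y : A) : imp x y ⊔ imp y x = 1 := MTLAlgebra.prelinearity x y

theorem sup_mul_eq {x y z : A} (h1 : x ⊔ z = 1) (h2 : y ⊔ z = 1) : x * y ⊔ z = 1 := by
  refine le_antisymm (le_one _) ?_
  have : (1 : A) = (x ⊔ z) * (y ⊔ z) := by rw [h1, h2, one_mul]
  rw [this, mul_sup', sup_mul', sup_mul']
  refine sup_le (sup_le le_sup_left ?_) (sup_le ?_ ?_)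
  · exact (mul_le_left _ _).trans le_sup_right
  · exact (mul_le_right _ _).trans le_sup_right
  · exact (mul_le_left _ _).trans le_sup_right

theorem sup_pow_eq {x z : A} (h : x ⊔ z = 1) (n : ℕ) : x ^ n ⊔ z = 1 := by
  induction n with
  | zero => rw [pow_zero]; exact le_antisymm (le_one _) le_sup_left
  | succ n ih => rw [pow_succ]; exact sup_mul_eq ih h

/-- If `g * x^6 = 0` and `x ∨ t = 1` then `g ≤ t`. -/
theorem le_of_nilpotent {g x t : A} (h : g * x ^ 6 = FLewAlgebra.bot) (h' : x ⊔ t = 1) :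
    g ≤ t := by
  have : g = g * (x ^ 6 ⊔ t) := by rw [sup_pow_eq h', mul_one]
  rw [this, mul_sup', h]
  exact sup_le (fbot_le _) (mul_le_right _ _)

theorem incompat {a f d g : A} (h1 : f * f = FLewAlgebra.bot)
    (h2 : imp a bot ≤ f) (h3 : imp f a ≤ f)
    (hg1 : g * imp (d * d) bot ≤ d)
    (hg2 : g * (d * d * d) = FLewAlgebra.bot) : g ^ 58 = FLewAlgebra.bot := by
  set x := imp d f with hx
  have e1 : x * d ≤ f := imp_mul_le _ _
  -- `x² d² ≤ 0`
  have e2 : x * x * (d * d) ≤ FLewAlgebra.bot := by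
    have : x * x * (d * d) = (x * d) * (x * d) := mul_mul_mul_comm x x d d
    rw [this, ← h1]
    exact mul_mono e1 e1
  have e3 : x * x ≤ imp (d * d) bot := resid.mp e2
  have e4 : g * (x * x) ≤ d := (mul_le_mul_l e3 g).trans hg1
  -- `g⁴ x⁶ = 0`
  have e5 : g ^ 4 * x ^ 6 = FLewAlgebra.bot := by
    refine le_antisymm ?_ (fbot_le _)
    have : g ^ 4 * x ^ 6 = g * (g * (x * x) * (g * (x * x)) * (g * (x * x))) := by
      simp only [pow_succ, pow_zero, one_mul]
      ac_rfl
    rw [this, ← hg2]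
    exact mul_le_mul_l (mul_mono (mul_mono e4 e4) e4) g
  -- `g⁴ f ≤ d`
  have e6 : g ^ 4 ≤ imp f d := le_of_nilpotent e5 (prelin d f)
  have e7 : g ^ 4 * f ≤ d := resid.mpr e6
  -- `g⁴ a ≤ f d`
  have e8 : imp (f * d) a ≤ x := by
    rw [mul_comm f d, imp_mul_imp]
    rw [hx, ← resid]
    exact (imp_mul_le _ _).trans h3
  have e9 : g ^ 4 ≤ imp a (f * d) := by
    refine le_of_nilpotent e5 (le_antisymm (le_one _) ?_)
    rw [← prelin (f * d) a]
    exact sup_le (e8.trans le_sup_left) le_sup_right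
  have e10 : g ^ 4 * a ≤ f * d := resid.mpr e9
  -- `g⁹ d ≤ f`
  have e11 : g ^ 9 * d ≤ f := by
    refine le_trans ?_ h2
    rw [← resid]
    have : g ^ 9 * d * a = g * ((g ^ 4 * (g ^ 4 * a)) * d) := by
      simp only [pow_succ, pow_zero, one_mul]
      ac_rfl
    rw [this]
    have h' : g ^ 4 * (g ^ 4 * a) ≤ d * d :=
      (mul_le_mul_l e10 _).trans (by rw [← mul_assoc]; exact mul_le_mul_r e7 d)
    refine (mul_le_mul_l (mul_le_mul_r h' d) g).trans hg2.le
  have e12 : g ^ 9 ≤ x := resid.mp e11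
  refine le_antisymm ?_ (fbot_le _)
  have : g ^ 58 = g ^ 4 * (g ^ 9) ^ 6 := by
    rw [← pow_mul, ← pow_add]
  rw [this, ← e5]
  refine mul_le_mul_l ?_ _
  have hp : ∀ (y : A) (n : ℕ), y ≤ x → y ^ n ≤ x ^ n := by
    intro y n hy
    induction n with
    | zero => simp
    | succ n ih => rw [pow_succ, pow_succ]; exact mul_mono ih hy
  exact hp _ 6 e12

end Incompat

/-- The premises: facts about the elements `a = var 0` and `f = var 1` of `D4`. -/
def prem : Set Fm :=
  {(Fm.mul (.var 1) (.var 1)).neg, .imp (Fm.var 0).neg (.var 1),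
    .imp (.imp (.var 1) (.var 0)) (.var 1)}

/-- The product of two facts about the element `d = var 2` of `L4`. -/
def fact : Fm :=
  .mul (.imp (Fm.mul (.var 2) (.var 2)).neg (.var 2))
    (Fm.mul (.mul (.var 2) (.var 2)) (.var 2)).neg

/-- The conclusion. -/
def concl : Fm := (fact.pow 58).neg

theorem prem_concl : MTLCons prem concl := by
  intro A _ v hv
  have h1 := (eval_neg v _).mp (hv _ (Or.inl rfl))
  have h2 := imp_eq_one.mp (hv _ (Or.inr (Or.inl rfl)))
  have h3 := imp_eq_one.mp (hv _ (Or.inr (Or.inr rfl)))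
  rw [concl, eval_neg, eval_pow]
  have hg1 : fact.eval v * (FLewAlgebra.imp (v 2 * v 2) FLewAlgebra.bot) ≤ v 2 := by
    have h : fact.eval v ≤
        FLewAlgebra.imp (FLewAlgebra.imp (v 2 * v 2) FLewAlgebra.bot) (v 2) := mul_le_left _ _
    exact resid.mpr h
  have hg2 : fact.eval v * (v 2 * v 2 * v 2) = FLewAlgebra.bot := by
    have h : fact.eval v ≤ FLewAlgebra.imp (v 2 * v 2 * v 2) FLewAlgebra.bot :=
      mul_le_right _ _
    exact le_antisymm (resid.mpr h) (fbot_le _)
  exact incompat (a := v 0) (f := v 1) (d := v 2) h1 h2 h3 hg1 hg2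

/-- Formulas without variables have the same value (`0` or `1`) in all algebras. -/
theorem eval_closed {A B : Type} [FLewAlgebra A] [FLewAlgebra B] (v : ℕ → A) (w : ℕ → B)
    (φ : Fm) (h : φ.vars = ∅) :
    (φ.eval v = 1 ∧ φ.eval w = 1) ∨ (φ.eval v = FLewAlgebra.bot ∧ φ.eval w = FLewAlgebra.bot) := by
  induction φ with
  | var n => exact absurd h (Set.singleton_ne_empty n)
  | zero => exact Or.inr ⟨rfl, rfl⟩
  | one => exact Or.inl ⟨rfl, rfl⟩
  | and φ ψ ih1 ih2 =>
    rw [Fm.vars, Set.union_empty_iff] at h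
    rcases ih1 h.1 with h1 | h1 <;> rcases ih2 h.2 with h2 | h2 <;>
      simp [Fm.eval, h1, h2, inf_eq_left.mpr (fbot_le (1 : A)), inf_eq_right.mpr (fbot_le (1 : A)),
        inf_eq_left.mpr (fbot_le (1 : B)), inf_eq_right.mpr (fbot_le (1 : B))]
  | or φ ψ ih1 ih2 =>
    rw [Fm.vars, Set.union_empty_iff] at h
    rcases ih1 h.1 with h1 | h1 <;> rcases ih2 h.2 with h2 | h2 <;>
      simp [Fm.eval, h1, h2, sup_eq_left.mpr (fbot_le (1 : A)), sup_eq_right.mpr (fbot_le (1 : A)),
        sup_eq_left.mpr (fbot_le (1 : B)), sup_eq_right.mpr (fbot_le (1 : B))]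
  | mul φ ψ ih1 ih2 =>
    rw [Fm.vars, Set.union_empty_iff] at h
    rcases ih1 h.1 with h1 | h1 <;> rcases ih2 h.2 with h2 | h2 <;>
      simp [Fm.eval, h1, h2, mul_bot]
  | imp φ ψ ih1 ih2 =>
    rw [Fm.vars, Set.union_empty_iff] at h
    rcases ih1 h.1 with h1 | h1 <;> rcases ih2 h.2 with h2 | h2 <;>
      simp [Fm.eval, h1, h2, one_imp, bot_imp]

/-- **Negative answer to Q1 of MP_acc005_lc.**  There is no minimum axiomatic extension of `MTL`
with the deductive interpolation property. -/
theorem result : ¬ ∃ L₀ : Set Fm → Fm → Prop, IsAxExt MTLCons L₀ ∧ DIP L₀ ∧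
    ∀ L : Set Fm → Fm → Prop, IsAxExt MTLCons L → DIP L → ∀ Γ φ, L₀ Γ φ → L Γ φ := by
  rintro ⟨L₀, ⟨Ax, -, hL₀⟩, hdip, hmin⟩
  have hD := hmin _ logicOf_isAxExt dip_D4
  have hL := hmin _ logicOf_isAxExt dip_L4
  -- soundness of `L₀` in the two chains
  have sD : ∀ Γ φ, L₀ Γ φ → ∀ v : ℕ → D4, (∀ γ ∈ Γ, γ.eval v = 1) → φ.eval v = 1 := by
    intro Γ φ h v hv
    refine hD Γ φ h D4 v ?_
    rintro γ (hγ | hγ)
    · exact hv γ hγ
    · exact hγ v
  have sL : ∀ Γ φ, L₀ Γ φ → ∀ v : ℕ → L4, (∀ γ ∈ Γ, γ.eval v = 1) → φ.eval v = 1 := by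
    intro Γ φ h v hv
    refine hL Γ φ h L4 v ?_
    rintro γ (hγ | hγ)
    · exact hv γ hγ
    · exact hγ v
  have h0 : L₀ prem concl := by
    rw [hL₀]
    exact fun A _ v hv => prem_concl A v fun γ hγ => hv γ (Or.inl hγ)
  obtain ⟨Δ, hΔ1, hΔ2, hΔ3⟩ := hdip _ _ h0
  have hclosed : ∀ δ ∈ Δ, δ.vars = ∅ := by
    intro δ hδ
    rw [Set.eq_empty_iff_forall_notMem]
    intro n hn
    obtain ⟨⟨γ, hγ, h1⟩, h2⟩ := hΔ1 ⟨δ, hδ, hn⟩
    have h3 : n ∈ ({0, 1} : Set ℕ) := by
      rcases hγ with rfl | rfl | rfl <;>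
        simp only [Fm.neg, Fm.vars, Set.mem_union, Set.mem_singleton_iff,
          Set.mem_empty_iff_false] at h1 <;>
        simp only [Set.mem_insert_iff, Set.mem_singleton_iff] <;> tauto
    have h4 : n ∈ ({2} : Set ℕ) := by
      have h5 : concl.vars ⊆ fact.vars ∪ ∅ :=
        Set.union_subset_union (vars_pow _ _) subset_rfl
      have h6 := h5 h2
      simp only [fact, Fm.neg, Fm.vars, Set.mem_union, Set.mem_singleton_iff,
        Set.mem_empty_iff_false] at h6
      simp only [Set.mem_singleton_iff]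
      tauto
    simp only [Set.mem_insert_iff, Set.mem_singleton_iff] at h3 h4
    omega
  let v : ℕ → D4 := fun n => if n = 0 then .a else .f
  let w : ℕ → L4 := fun _ => .d
  have hv : ∀ γ ∈ prem, γ.eval v = 1 := by
    rintro γ (rfl | rfl | rfl) <;> decide
  have hw : ∀ δ ∈ Δ, δ.eval w = 1 := by
    intro δ hδ
    rcases eval_closed v w δ (hclosed δ hδ) with h | h
    · exact h.2
    · have h1 := sD _ _ (hΔ2 δ hδ) v hv
      rw [h.1] at h1
      exact absurd h1 (by decide)
  have h1 := sL _ _ hΔ3 w hw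
  rw [concl, eval_neg, eval_pow] at h1
  have h2 : fact.eval w = 1 := by decide
  rw [h2, one_pow] at h1
  exact absurd h1 (by decide)

end Pool.Agent.Results.MP_acc005_lc.NoMinimum
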